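import Pool.Agent.W477.GM.Stms

/-!
# Project GM: power sets are bounded
-/

set_option maxHeartbeats 1000000
set_option linter.all false

namespace Pool.Agent.W477.GM.H168

open Pool.Agent.W477.GM

section unfolding

variable {P : Type 1} [PartialOrder P] [OrderTop P]

theorem HS_mk (S : SysData P) (ι : Type) (U : ι → P → Prop) (x : ι → Nm P) :
    HS S (.mk ι U x) ↔ (∃ a, ∀ i u, U i u → S.rho a u = u) ∧
      (∃ e, ∀ g, g ∈ S.fix e → ∀ p, feq (act g (.mk ι U x)) (.mk ι U x) p) ∧ ∀ i, HS S (x i) :=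
  Iff.rfl

theorem Liv_mk (S : SysData P) (a : Ordinal.{0}) (ι : Type) (U : ι → P → Prop) (x : ι → Nm P) :
    Liv S a (.mk ι U x) ↔ (∀ i u, U i u → S.rho a u = u) ∧ ∀ i, Liv S a (x i) := Iff.rfl

theorem fmem_mk (x : Nm P) (ι : Type) (W : ι → P → Prop) (y : ι → Nm P) (p : P) :
    fmem x (.mk ι W y) p ↔ ∀ q, q ≤ p → ∃ r, r ≤ q ∧ ∃ j, Lab (W j) r ∧ feq x (y j) r := Iff.rfl

theorem act_mk (g : P ≃o P) (ι : Type) (U : ι → P → Prop) (x : ι → Nm P) :
    act g (.mk ι U x) = .mk ι (fun i u => U i (g.symm u)) (fun i => act g (x i)) := rfl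

end unfolding

section conds

variable {C : Type} {L : C → ℕ∞}

theorem rs_c (K : J → Prop) (p : Cn C L) : (rs K p).c = p.c := rfl

theorem rs_len_of {K : J → Prop} {p : Cn C L} {j : J} (h : K j) : (rs K p).len j = p.len j := by
  simp [rs, h]

theorem rs_len_not {K : J → Prop} {p : Cn C L} {j : J} (h : ¬ K j) : (rs K p).len j = 0 := by
  simp [rs, h]

theorem rs_bit_of {K : J → Prop} {p : Cn C L} {j : J} (h : K j) (o : Ordinal.{0}) :
    (rs K p).bit j o = p.bit j o := by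
  simp [rs, h]

theorem mg_len_of {K : J → Prop} {u t : Cn C L} {j : J} (h : K j) : (mg K u t).len j = u.len j := by
  simp [mg, h]

theorem mg_len_lt {K : J → Prop} {u t : Cn C L} {j : J} (h : ¬ K j) (h' : (j.2.1 : ℕ∞) < L u.c) :
    (mg K u t).len j = t.len j := by
  simp [mg, h, h']

theorem mg_len_not {K : J → Prop} {u t : Cn C L} {j : J} (h : ¬ K j)
    (h' : ¬ (j.2.1 : ℕ∞) < L u.c) : (mg K u t).len j = 0 := by
  simp [mg, h, h']

theorem mg_bit_of {K : J → Prop} {u t : Cn C L} {j : J} (h : K j) (o : Ordinal.{0}) :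
    (mg K u t).bit j o = u.bit j o := by
  simp [mg, h]

theorem mg_bit_lt {K : J → Prop} {u t : Cn C L} {j : J} (h : ¬ K j) (h' : (j.2.1 : ℕ∞) < L u.c)
    (o : Ordinal.{0}) : (mg K u t).bit j o = t.bit j o := by
  simp [mg, h, h']

theorem fl_c (z : J → Ordinal.{0} → Bool) (p : Cn C L) : (fl z p).c = p.c := rfl

theorem fl_eq {z : J → Ordinal.{0} → Bool} {p : Cn C L}
    (h : ∀ j, p.len j ≠ 0 → ∀ o, z j o = false) : fl z p = p := by
  apply Cn.ext'
  · rfl
  · intro j; rfl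
  · intro j o ho
    have ho' : o < p.len j := ho
    have h1 : p.len j ≠ 0 := fun h => by
      rw [h] at ho'
      exact absurd ho' (not_lt.2 zero_le)
    simp [fl, ho', h j h1 o]

theorem rs_eq {K : J → Prop} {p : Cn C L} (h : ∀ j, ¬ K j → p.len j = 0) : rs K p = p := by
  apply Cn.ext'
  · rfl
  · intro j
    by_cases hj : K j
    · exact rs_len_of hj
    · rw [rs_len_not hj, h j hj]
  · intro j o ho
    by_cases hj : K j
    · exact rs_bit_of hj o
    · rw [rs_len_not hj] at ho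
      exact absurd ho (not_lt.2 zero_le)

theorem len_of_rs {K : J → Prop} {p : Cn C L} (h : rs K p = p) {j : J} (hj : p.len j ≠ 0) : K j := by
  by_contra hK
  apply hj
  rw [← h]
  exact rs_len_not hK

variable [PartialOrder C] [OrderTop C]

/-- strengthening of the first coordinate -/
theorem exists_strong (hAx : CAx C L) (e : Finset (Ordinal.{0} × ℕ)) (p : Cn C L) :
    ∃ p' : Cn C L, p' ≤ p ∧ ∀ β n, (β, n) ∈ e → (n : ℕ∞) < L p'.c := by
  obtain ⟨d, hd, hN⟩ := hAx.cof p.c (e.sup (fun t => t.2))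
  refine ⟨{ p with c := d, sup := fun j hj => (p.sup j hj).trans_le (hAx.anti d p.c hd) },
    ⟨hd, fun j => ⟨le_rfl, fun o _ => rfl⟩⟩, ?_⟩
  intro β n hn
  have h1 : n ≤ e.sup (fun t => t.2) := Finset.le_sup (f := fun t : Ordinal.{0} × ℕ => t.2) hn
  exact lt_of_le_of_lt (by exact_mod_cast h1) hN

end conds

theorem high_holds (h : P_EQ) (h1 : P_ACT) (h2 : P_FC) (h3 : P_HS) (h4 : P_DEC) (hk : P_KAP)
    (hs : P_SYSC) (hd : P_DIST) (hh : P_HOMK) (hm : P_MG) : P_HIGH := by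
  intro C _ _ L hAx
  have SA : SysAx (sysC C L) := hs hk C L hAx
  have E : EqF (Cn C L) := h (Cn C L)
  have A : ActF (Cn C L) := h1 (Cn C L)
  have H : HsF (Cn C L) (sysC C L) := h3 (Cn C L) (sysC C L) SA
  obtain ⟨_, D2, D3⟩ := h4 (Cn C L) (sysC C L) SA
  have M : MgF C L := hm C L hAx
  intro x hx
  obtain ⟨ι, U, y⟩ := x
  obtain ⟨a, ha⟩ := H.liv _ hx
  obtain ⟨b, hab, hb⟩ := KapF.unb hk ι a
  have hxb : Liv (sysC C L) b (.mk ι U y) := H.liv_mono a b _ hab ha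
  have hyb : ∀ i, Liv (sysC C L) b (y i) := ((Liv_mk _ _ _ _ _).1 hxb).2
  have hyh : ∀ i, HS (sysC C L) (y i) := fun i => H.child ι U y hx i
  obtain ⟨Kc, ec, hec, hKc⟩ := KapF.stage hk C L hAx.cnt b
  have hcard : Cardinal.mk (ι × Kc) < kap b := by
    rw [Cardinal.mk_prod, Cardinal.lift_id, Cardinal.lift_id]
    exact Cardinal.mul_lt_of_lt (KapF.reg hk b).aleph0_le hb hKc
  -- notation
  set Kb : J → Prop := fun j => j.1 < b with hKb
  have hrho : ∀ p : Cn C L, (sysC C L).rho b p = rs Kb p := fun p => rfl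
  have rmono : ∀ {p q : Cn C L}, p ≤ q → rs Kb p ≤ rs Kb q := fun h => SA.mono b _ _ h
  have rrs : ∀ p : Cn C L, rs Kb (rs Kb p) = rs Kb p := fun p => SA.rho_rho b b p le_rfl
  have rle : ∀ p : Cn C L, p ≤ rs Kb p := fun p => SA.le_rho b p
  let zN : (ι → Kc → Prop) → Nm (Cn C L) := fun Q =>
    .mk ι (fun i u => ∃ k, Q i k ∧ ec k = u ∧ rs Kb u = u) y
  refine ⟨{Q : ι → Kc → Prop // HS (sysC C L) (zN Q)}, fun Q => zN Q.1, fun Q => Q.2, ?_⟩
  intro w p hw hsub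
  obtain ⟨ew, hew⟩ := H.supp w hw
  obtain ⟨ex, hex⟩ := H.supp _ hx
  -- the common support
  let ew' : Finset (Ordinal.{0} × ℕ) := ew
  let ex' : Finset (Ordinal.{0} × ℕ) := ex
  obtain ⟨e, he⟩ : ∃ e : Finset (Ordinal.{0} × ℕ), e = ew' ∪ ex' := ⟨_, rfl⟩
  have hfw : ∀ g : Cn C L ≃o Cn C L, (∃ z, FinS z ∧ (∀ j : J, (j.1, j.2.1) ∈ e → ∀ o, z j o = false) ∧
      ∀ q, g q = fl z q) → ∀ q, feq (act g w) w q := by
    rintro g ⟨z, hz1, hz2, hz3⟩ q
    refine hew g ⟨z, hz1, fun j hj o => hz2 j ?_ o, hz3⟩ q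
    rw [he]
    exact Finset.mem_union_left _ hj
  have hfx : ∀ g : Cn C L ≃o Cn C L, (∃ z, FinS z ∧ (∀ j : J, (j.1, j.2.1) ∈ e → ∀ o, z j o = false) ∧
      ∀ q, g q = fl z q) → ∀ q, feq (act g (.mk ι U y)) (.mk ι U y) q := by
    rintro g ⟨z, hz1, hz2, hz3⟩ q
    refine hex g ⟨z, hz1, fun j hj o => hz2 j ?_ o, hz3⟩ q
    rw [he]
    exact Finset.mem_union_right _ hj
  obtain ⟨p', hp'p, hp'L⟩ := exists_strong hAx e p
  let T : J → Prop := fun j => b ≤ j.1 ∧ (j.1, j.2.1) ∈ e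
  let B : Nm (Cn C L) → Cn C L → Prop := fun y' r => fmem y' w r ∧ fmem y' (.mk ι U y) r
  have Bmono : ∀ {y' r r'}, r' ≤ r → B y' r → B y' r' := fun hr hB =>
    ⟨E.mmono _ _ _ _ hr hB.1, E.mmono _ _ _ _ hr hB.2⟩
  have Bcongr : ∀ {y' y'' r}, feq y' y'' r → B y' r → B y'' r := fun hr hB =>
    ⟨E.mcongr _ _ _ _ _ hr (E.refl _ _) hB.1, E.mcongr _ _ _ _ _ hr (E.refl _ _) hB.2⟩
  let AA : ι × Kc → Cn C L → Prop := fun ik t =>
    rs Kb (ec ik.2) = ec ik.2 ∧ (ec ik.2).c ≤ p'.c ∧ B (y ik.1) (mg Kb (ec ik.2) t)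
  obtain ⟨t, ht0, htc, htT, htdec⟩ := hd hk C L b e (ι × Kc) AA (rs T p') hcard
    (fun j hj => rs_len_not hj) (fun β n hn => hp'L β n hn)
    (fun i t t' htt hA => ⟨hA.1, hA.2.1, Bmono (M.mono _ _ _ _ _ le_rfl htt) hA.2.2⟩)
  have htc' : t.c = p'.c := htc
  obtain ⟨Z, hZ⟩ : ∃ Z, Z = zN (fun i k => AA (i, k) t) := ⟨_, rfl⟩
  have hZmem : ∀ (y' : Nm (Cn C L)) (s : Cn C L), fmem y' Z s ↔ ∀ q, q ≤ s → ∃ r, r ≤ q ∧ ∃ i k,
      AA (i, k) t ∧ r ≤ ec k ∧ feq y' (y i) r := by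
    intro y' s
    rw [hZ]
    constructor
    · intro hf q hq
      obtain ⟨r, hr, i, ⟨u, ⟨k, hk1, hk2, hk3⟩, hru⟩, hfe⟩ := hf q hq
      exact ⟨r, hr, i, k, hk1, by rw [hk2]; exact hru, hfe⟩
    · intro hf q hq
      obtain ⟨r, hr, i, k, hA, hrk, hfe⟩ := hf q hq
      exact ⟨r, hr, i, ⟨ec k, ⟨k, hA, rfl, hA.1⟩, hrk⟩, hfe⟩
  have hZliv : Liv (sysC C L) b Z := by
    rw [hZ]
    refine ⟨?_, hyb⟩
    rintro i u ⟨k, _, _, hu⟩
    exact hu
  -- C1
  have C1 : ∀ (y' : Nm (Cn C L)), Liv (sysC C L) b y' → ∀ s : Cn C L, rs Kb s = s →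
      (fmem y' Z s ↔ ∀ s', s' ≤ s → rs Kb s' = s' → ∃ s'', s'' ≤ s' ∧ rs Kb s'' = s'' ∧
        s''.c ≤ p'.c ∧ B y' (mg Kb s'' t)) := by
    intro y' hy' s hsb
    constructor
    · intro hf s' hs' hs'b
      obtain ⟨r, hr, i, k, hA, hrk, hfe⟩ := (hZmem y' s).1 hf s' hs'
      have hk1 : rs Kb r ≤ ec k := by
        have := rmono hrk
        rwa [hA.1] at this
      have hfe' : feq y' (y i) (rs Kb r) := D2 _ _ _ b hy' (hyb i) hfe
      refine ⟨rs Kb r, ?_, rrs r, le_trans hk1.1 hA.2.1, ?_⟩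
      · have := rmono hr
        rwa [hs'b] at this
      · have h5 : B (y i) (mg Kb (rs Kb r) t) := Bmono (M.mono _ _ _ _ _ hk1 le_rfl) hA.2.2
        exact Bcongr (E.symm _ _ _ (E.mono _ _ _ _ (M.le_u _ _ _ (rrs r)) hfe')) h5
    · intro hf
      rw [hZmem]
      intro q hq
      have hq1 : rs Kb q ≤ s := by
        have := rmono hq
        rwa [hsb] at this
      obtain ⟨s2, hs2, hs2b, hs2c, hB⟩ := hf (rs Kb q) hq1 (rrs q)
      obtain ⟨r, hr, i, _, hfe⟩ := (fmem_mk _ _ _ _ _).1 hB.2 _ le_rfl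
      have hs3 : rs Kb r ≤ s2 := by
        have := rmono hr
        rwa [M.rs, hs2b] at this
      have hfe' : feq y' (y i) (rs Kb r) := D2 _ _ _ b hy' (hyb i) hfe
      obtain ⟨k, hk'⟩ := hec (rs Kb r) (rrs r)
      have hB3 : B (y i) (mg Kb (rs Kb r) t) :=
        Bcongr (E.mono _ _ _ _ (M.le_u _ _ _ (rrs r)) hfe') (Bmono (M.mono _ _ _ _ _ hs3 le_rfl) hB)
      have hr' : mg Kb (rs Kb r) q ≤ rs Kb r := M.le_u _ _ _ (rrs r)
      refine ⟨mg Kb (rs Kb r) q, M.le_q _ _ _ (hs3.trans hs2), i, k, ⟨?_, ?_, ?_⟩, ?_, ?_⟩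
      · change rs Kb (ec k) = ec k
        rw [hk']
        exact rrs r
      · change (ec k).c ≤ p'.c
        rw [hk']
        exact le_trans hs3.1 hs2c
      · change B (y i) (mg Kb (ec k) t)
        rw [hk']
        exact hB3
      · rw [hk']
        exact hr'
      · exact E.mono _ _ _ _ hr' hfe'
  -- C2
  have C2 : ∀ g : Cn C L ≃o Cn C L, (∃ z, FinS z ∧ (∀ j : J, (j.1, j.2.1) ∈ e → ∀ o, z j o = false) ∧
      ∀ q, g q = fl z q) → ∀ (y' : Nm (Cn C L)), Liv (sysC C L) b y' → ∀ s,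
      fmem y' Z s → fmem (act g y') Z (g s) := by
    intro g hg y' hy' s hf
    have hgG : g ∈ (sysC C L).G := by
      obtain ⟨z, hz1, _, hz3⟩ := hg
      exact ⟨z, hz1, hz3⟩
    have hgiG : g⁻¹ ∈ (sysC C L).G := SA.inv g hgG
    have hf1 : fmem y' Z (rs Kb s) := D3 _ _ _ b hy' hZliv hf
    refine E.mmono _ _ (g (rs Kb s)) _ ((OrderIso.le_iff_le g).2 (rle s)) ?_
    have hgy : Liv (sysC C L) b (act g y') := H.livact g hgG b y' hy'
    have hact : ∀ p : Cn C L, rs Kb (g p) = g (rs Kb p) := fun p => SA.rho_act g hgG b p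
    have hacti : ∀ p : Cn C L, rs Kb (g.symm p) = g.symm (rs Kb p) :=
      fun p => SA.rho_act g⁻¹ hgiG b p
    rw [C1 _ hgy _ (by rw [hact, rrs])]
    intro s' hs' hs'b
    have h5 : g.symm s' ≤ rs Kb s := by
      rw [OrderIso.symm_apply_le]
      exact hs'
    obtain ⟨s2, hs2, hs2b, hs2c, hB⟩ := (C1 y' hy' _ (rrs s)).1 hf1 (g.symm s') h5
      (by rw [hacti, hs'b])
    obtain ⟨z, hz1, hz2, hz3⟩ := id hg
    have h6 : g (mg Kb s2 t) = mg Kb (g s2) t := by
      rw [hz3, hz3]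
      apply M.flip
      intro j _ hj o
      apply hz2
      by_contra hne
      apply hj
      apply htT
      rintro ⟨_, h8⟩
      exact hne h8
    refine ⟨g s2, ?_, by rw [hact, hs2b], ?_, ?_⟩
    · rw [← OrderIso.le_symm_apply]
      exact hs2
    · rw [hz3]
      exact hs2c
    · rw [← h6]
      constructor
      · exact E.mcongr _ _ _ _ _ (E.refl _ _) (hfw g hg _) ((A.fmem g _ _ _).2 hB.1)
      · exact E.mcongr _ _ _ _ _ (E.refl _ _) (hfx g hg _) ((A.fmem g _ _ _).2 hB.2)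
  -- `Z` is symmetric
  have hinv : ∀ g : Cn C L ≃o Cn C L, (∃ z, FinS z ∧ (∀ j : J, (j.1, j.2.1) ∈ e →
      ∀ o, z j o = false) ∧ ∀ q, g q = fl z q) → (∃ z, FinS z ∧ (∀ j : J, (j.1, j.2.1) ∈ e →
      ∀ o, z j o = false) ∧ ∀ q, g⁻¹ q = fl z q) := by
    intro g hg
    exact SA.finv e g hg
  have hZact : ∀ g : Cn C L ≃o Cn C L, (∃ z, FinS z ∧ (∀ j : J, (j.1, j.2.1) ∈ e →
      ∀ o, z j o = false) ∧ ∀ q, g q = fl z q) → ∀ q, feq (act g Z) Z q := by
    intro g hg q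
    have k1 : ∀ i q', fmem (act g (y i)) (act g Z) q' → fmem (act g (y i)) Z q' := by
      intro i q' hf
      have e1 : g (g.symm q') = q' := OrderIso.apply_symm_apply g q'
      rw [← e1, A.fmem] at hf
      have := C2 g hg (y i) (hyb i) _ hf
      rwa [e1] at this
    have k2 : ∀ i q', fmem (y i) Z q' → fmem (y i) (act g Z) q' := by
      intro i q' hf
      have h5 := C2 g⁻¹ (hinv g hg) (y i) (hyb i) _ hf
      rw [← A.fmem g, ← A.mul, mul_inv_cancel, A.one] at h5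
      have e1 : g (g⁻¹ q') = q' := OrderIso.apply_symm_apply g q'
      rwa [e1] at h5
    rw [hZ] at k1 k2 ⊢
    exact E.ext _ _ _ _ _ _ _ (fun i q' _ hf => k1 i q' hf) (fun i q' _ hf => k2 i q' hf)
  have hZHS : HS (sysC C L) (zN (fun i k => AA (i, k) t)) := by
    rw [hZ] at hZact
    refine ⟨⟨b, ?_⟩, ⟨e, ?_⟩, hyh⟩
    · rintro i u ⟨k, _, _, hu⟩
      exact hu
    · intro g hg q
      exact hZact g hg q
  -- the condition
  have hTt : rs T t = t := rs_eq (fun j hj => htT j hj)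
  obtain ⟨q, hqdef⟩ : ∃ q, q = mg T t p' := ⟨_, rfl⟩
  have hq1 : q ≤ p' := by rw [hqdef]; exact M.le_q _ _ _ ht0
  have hq2 : q ≤ t := by rw [hqdef]; exact M.le_u _ _ _ hTt
  refine ⟨q, hq1.trans hp'p, ⟨fun i k => AA (i, k) t, hZHS⟩, ?_⟩
  change feq w (zN (fun i k => AA (i, k) t)) q
  rw [← hZ]
  -- (i)
  have P1 : ∀ w', HS (sysC C L) w' → ∀ q1, q1 ≤ q → fmem w' w q1 → fmem w' Z q1 := by
    intro w' hw' q1 hq1q hf
    apply E.mdense
    intro q3 hq3
    have hf3 : fmem w' w q3 := E.mmono _ _ _ _ hq3 hf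
    have hx3 := hsub w' hw' q3 (hq3.trans (hq1q.trans (hq1.trans hp'p))) hf3
    obtain ⟨r, hr, i, _, hfe⟩ := (fmem_mk _ _ _ _ _).1 hx3 q3 le_rfl
    have hrq : r ≤ q := hr.trans (hq3.trans hq1q)
    have hrt : r ≤ t := hrq.trans hq2
    have hrc : r.c ≤ p'.c := by
      have := hrt.1
      rwa [htc'] at this
    have hBr : B (y i) r := Bcongr hfe ⟨E.mmono _ _ _ _ hr hf3, E.mmono _ _ _ _ hr hx3⟩
    -- homogeneity
    let K' : J → Prop := fun j => j.1 < b ∨ (j.1, j.2.1) ∈ e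
    let v : ℕ → Nm (Cn C L) := fun n => if n = 0 then y i else if n = 1 then w else .mk ι U y
    have hv : ∀ n (g : Cn C L ≃o Cn C L), (∃ z, FinS z ∧ (∀ j, K' j → ∀ o, z j o = false) ∧
        ∀ q, g q = fl z q) → ∀ q, feq (act g (v n)) (v n) q := by
      rintro n g ⟨z, hz1, hz2, hz3⟩ q'
      have hge : ∃ z, FinS z ∧ (∀ j : J, (j.1, j.2.1) ∈ e → ∀ o, z j o = false) ∧
          ∀ q, g q = fl z q := ⟨z, hz1, fun j hj o => hz2 j (Or.inr hj) o, hz3⟩
      by_cases h0 : n = 0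
      · have e1 : v n = y i := by simp [v, h0]
        rw [e1]
        have e2 : act g (y i) = y i := by
          apply H.fix b g _ _ (hyb i)
          intro u hu
          rw [hz3]
          apply fl_eq
          intro j hj o
          exact hz2 j (Or.inl (len_of_rs (K := Kb) hu hj)) o
        rw [e2]
        exact E.refl _ _
      · by_cases h1 : n = 1
        · have e1 : v n = w := by simp [v, h1]
          rw [e1]
          exact hfw g hge q'
        · have e1 : v n = .mk ι U y := by simp [v, h0, h1]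
          rw [e1]
          exact hfx g hge q'
    have hB' : B (y i) (rs K' r) := by
      constructor
      · have := hh C L hAx K' (.mem 0 1) v r hv hBr.1
        exact this
      · have := hh C L hAx K' (.mem 0 2) v r hv hBr.2
        exact this
    obtain ⟨k, hk'⟩ := hec (rs Kb r) (rrs r)
    -- the condition `t'`
    obtain ⟨t', ht'⟩ : ∃ t' : Cn C L, t' = mg (fun _ => False) (cz p'.c) (rs T r) := ⟨_, rfl⟩
    have ht'c : t'.c = p'.c := by rw [ht', M.c]; rfl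
    have hTL : ∀ j, T j → (j.2.1 : ℕ∞) < L (cz (L := L) p'.c).c := fun j hj => hp'L j.1 j.2.1 hj.2
    have ht'len : ∀ j, T j → t'.len j = r.len j := by
      intro j hj
      rw [ht', mg_len_lt (by simp) (hTL j hj), rs_len_of hj]
    have ht'bit : ∀ j, T j → ∀ o, t'.bit j o = r.bit j o := by
      intro j hj o
      rw [ht', mg_bit_lt (by simp) (hTL j hj), rs_bit_of hj]
    have ht'not : ∀ j, ¬ T j → t'.len j = 0 := by
      intro j hj
      rw [ht']
      by_cases h' : (j.2.1 : ℕ∞) < L (cz (L := L) p'.c).c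
      · rw [mg_len_lt (by simp) h', rs_len_not hj]
      · rw [mg_len_not (by simp) h']
    have ht't : t' ≤ t := by
      refine ⟨by rw [ht'c, htc'], fun j => ?_⟩
      by_cases hj : T j
      · rw [ht'len j hj]
        refine ⟨(hrt.2 j).1, fun o ho => ?_⟩
        rw [ht'bit j hj]
        exact (hrt.2 j).2 o ho
      · rw [htT j hj]
        exact ⟨zero_le, fun o ho => absurd ho (not_lt.2 zero_le)⟩
    have hKT : ∀ j, ¬ Kb j → (K' j ↔ T j) := by
      intro j hj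
      constructor
      · rintro (h5 | h5)
        · exact absurd h5 hj
        · exact ⟨not_lt.1 hj, h5⟩
      · intro h5
        exact Or.inr h5.2
    have hLr : ∀ j, T j → (j.2.1 : ℕ∞) < L (rs Kb r).c := fun j hj =>
      lt_of_lt_of_le (hTL j hj) (hAx.anti _ _ hrc)
    have hmg : mg Kb (rs Kb r) t' = rs K' r := by
      have hlen : ∀ j, (mg Kb (rs Kb r) t').len j = (rs K' r).len j := by
        intro j
        by_cases hj : Kb j
        · rw [mg_len_of hj, rs_len_of hj, rs_len_of (K := K') (Or.inl hj)]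
        · by_cases hT : T j
          · rw [mg_len_lt hj (hLr j hT), ht'len j hT, rs_len_of ((hKT j hj).2 hT)]
          · rw [rs_len_not (fun h5 => hT ((hKT j hj).1 h5))]
            by_cases h' : (j.2.1 : ℕ∞) < L (rs Kb r).c
            · rw [mg_len_lt hj h', ht'not j hT]
            · rw [mg_len_not hj h']
      apply Cn.ext'
      · rw [M.c]; rfl
      · exact hlen
      · intro j o ho
        by_cases hj : Kb j
        · rw [mg_bit_of hj, rs_bit_of hj, rs_bit_of (K := K') (Or.inl hj)]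
        · by_cases hT : T j
          · rw [mg_bit_lt hj (hLr j hT), ht'bit j hT, rs_bit_of ((hKT j hj).2 hT)]
          · rw [hlen j, rs_len_not (fun h5 => hT ((hKT j hj).1 h5))] at ho
            exact absurd ho (not_lt.2 zero_le)
    have hA' : AA (i, k) t' := by
      refine ⟨?_, ?_, ?_⟩
      · change rs Kb (ec k) = ec k
        rw [hk']
        exact rrs r
      · change (ec k).c ≤ p'.c
        rw [hk']
        exact hrc
      · change B (y i) (mg Kb (ec k) t')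
        rw [hk', hmg]
        exact hB'
    have hA : AA (i, k) t := by
      rcases htdec (i, k) with h5 | h5
      · exact h5
      · exact absurd hA' (h5 t' ht't ht'c (fun j hj => ht'not j hj))
    refine ⟨r, hr, ?_⟩
    rw [hZmem]
    intro q4 hq4
    refine ⟨q4, le_rfl, i, k, hA, ?_, E.mono _ _ _ _ hq4 hfe⟩
    rw [hk']
    exact hq4.trans (rle r)
  -- (ii)
  have P2 : ∀ j q1, q1 ≤ q → fmem (y j) Z q1 → fmem (y j) w q1 := by
    intro j q1 hq1q hf
    apply E.mdense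
    intro q3 hq3
    obtain ⟨r, hr, i, k, hA, hrk, hfe⟩ := (hZmem _ _).1 hf q3 hq3
    refine ⟨r, hr, ?_⟩
    have hrt : r ≤ t := hr.trans (hq3.trans (hq1q.trans hq2))
    have h5 : r ≤ mg Kb (ec k) t := M.le_of _ _ _ _ hrk hrt
    exact (Bcongr (E.symm _ _ _ hfe) (Bmono h5 hA.2.2)).1
  obtain ⟨κ', W, w'⟩ := w
  rw [hZ] at P1 P2 ⊢
  exact E.ext _ _ _ _ _ _ _ (fun i q1 hq1q hf => P1 _ (H.child _ _ _ hw i) q1 hq1q hf)
    (fun j q1 hq1q hf => P2 j q1 hq1q hf)

end Pool.Agent.W477.GM.H168
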